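import Pool.Agent.W960.HP.Tot
import Pool.Agent.H709U.TopG

/-! # A cubic bound for the total persistence of round closed orbits of all sizes -/

open Set MeasureTheory
open scoped ENNReal

namespace Pool.Agent.Results.MP_95e7ec_an.PersistentRound

/-- the vector field `(P, Q)` rotated by the angle `a` -/
noncomputable def rotated (P Q : MvPolynomial (Fin 2) ℝ) (a : ℝ) (z : ℝ × ℝ) : ℝ × ℝ :=
  (Real.cos a * MvPolynomial.eval ![z.1, z.2] P - Real.sin a * MvPolynomial.eval ![z.1, z.2] Q,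
    Real.sin a * MvPolynomial.eval ![z.1, z.2] P + Real.cos a * MvPolynomial.eval ![z.1, z.2] Q)

/-- all closed orbits in the plane (ranges of nonconstant periodic solutions, limit cycles or not)
of the system `x' = P, y' = Q` -/
def closedOrbits (P Q : MvPolynomial (Fin 2) ℝ) : Set (Set (ℝ × ℝ)) :=
  {C | ∃ γ : ℝ → ℝ × ℝ, ∃ T : ℝ, 0 < T ∧
    (∀ t : ℝ, HasDerivAt γ
      (MvPolynomial.eval ![(γ t).1, (γ t).2] P, MvPolynomial.eval ![(γ t).1, (γ t).2] Q) t) ∧
    (∀ t : ℝ, γ (t + T) = γ t) ∧ (∃ s t : ℝ, γ s ≠ γ t) ∧ C = Set.range γ}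

/-- the closed orbit `C` of the field rotated by `a` is `β`-round: some common zero `p` of `P` and
`Q` has, for every `z ∈ C`, distance greater than `β |z - p|` from the tangent line of `C` at
`z` -/
def Round (P Q : MvPolynomial (Fin 2) ℝ) (β a : ℝ) (C : Set (ℝ × ℝ)) : Prop :=
  ∃ p : ℝ × ℝ, MvPolynomial.eval ![p.1, p.2] P = 0 ∧ MvPolynomial.eval ![p.1, p.2] Q = 0 ∧
    ∀ z ∈ C, β * √((z.1 - p.1) ^ 2 + (z.2 - p.2) ^ 2) *
        √((rotated P Q a z).1 ^ 2 + (rotated P Q a z).2 ^ 2) <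
      |(z.1 - p.1) * (rotated P Q a z).2 - (z.2 - p.2) * (rotated P Q a z).1|

/-- The closed orbit `C` of `(P, Q)` persists, as a `β`-round closed orbit, when the field is
rotated by the angles between `0` and `η`: there are a continuous map `(a, t) ↦ γ a t` and a
continuous positive function `a ↦ T a` such that for all angles `a` between `0` and `η` the curve
`γ a` is a nonconstant solution of period `T a` of the field rotated by `a`, its range is
`β`-round, and `C` is the range of `γ 0`. -/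
def Persists (P Q : MvPolynomial (Fin 2) ℝ) (β η : ℝ) (C : Set (ℝ × ℝ)) : Prop :=
  ∃ γ : ℝ → ℝ → ℝ × ℝ, ∃ T : ℝ → ℝ,
    ContinuousOn (fun q : ℝ × ℝ => γ q.1 q.2) (uIcc 0 η ×ˢ univ) ∧ ContinuousOn T (uIcc 0 η) ∧
    (∀ a ∈ uIcc 0 η, 0 < T a ∧ (∀ t, HasDerivAt (γ a) (rotated P Q a (γ a t)) t) ∧
      (∀ t, γ a (t + T a) = γ a t) ∧ (∃ s t, γ a s ≠ γ a t) ∧ Round P Q β a (range (γ a))) ∧
    C = range (γ 0)

/-- For all relatively prime `P, Q` of degree at most `n` and `0 < β < 1`: the sum, over all closed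
orbits in the plane of the single field `(P, Q)`, of the lengths of the intervals of angles up to
which they persist as `β`-round closed orbits is at most `2 π n³ / β²`. -/
theorem result (n : ℕ) (P Q : MvPolynomial (Fin 2) ℝ) (hP : P.totalDegree ≤ n)
    (hQ : Q.totalDegree ≤ n) (hrel : IsRelPrime P Q) (β : ℝ) (hβ : 0 < β) (hβ1 : β < 1) :
    ∑' C : closedOrbits P Q,
      volume {η : ℝ | η ∈ Ioo (-Real.pi) Real.pi ∧ Persists P Q β η C} ≤
      ENNReal.ofReal (2 * Real.pi * n ^ 3 / β ^ 2) := by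
  have hF : ContDiff ℝ 2 (H709R2.field P Q) := H709R2.contDiff_field P Q
  have hβ2 : 0 < 1 - β ^ 2 := by nlinarith
  set x : ℝ := β / √(1 - β ^ 2) with hx
  have hxpos : 0 < x := div_pos hβ (Real.sqrt_pos.2 hβ2)
  have hx2 : x ^ 2 = β ^ 2 / (1 - β ^ 2) := by
    rw [hx, div_pow, Real.sq_sqrt hβ2.le]
  obtain ⟨g, h1, h2, h3⟩ := H709U.roundCubic hP hQ hrel hxpos
  have hM : H709Q.Maj (fun α => (({D | H709R2.ClosedOrbit (H709U.rf (H709R2.field P Q) α) D ∧
      Round P Q β α D}.encard : ℕ∞) : ℝ≥0∞)) (Real.pi * n ^ 3 / β ^ 2) := by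
    refine ⟨g, h1, fun α hα => ?_, h3.trans (ENNReal.ofReal_le_ofReal (le_of_eq ?_))⟩
    · refine le_trans (ENat.toENNReal_le.2 (encard_le_encard ?_)) (h2 α hα)
      rintro C ⟨hC, p, hp1, hp2, h⟩
      refine ⟨hC, p, Prod.ext hp1 hp2, ?_⟩
      intro z hz
      have h4 := h z hz
      set v := H709U.V (H709R2.field P Q) p α z with hv
      set w := H709U.W (H709R2.field P Q) p α z with hw
      have h5 : (z.1 - p.1) * (rotated P Q α z).2 - (z.2 - p.2) * (rotated P Q α z).1 = v := rfl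
      have h6 : ((z.1 - p.1) ^ 2 + (z.2 - p.2) ^ 2) *
          ((rotated P Q α z).1 ^ 2 + (rotated P Q α z).2 ^ 2) = v ^ 2 + w ^ 2 := by
        have h7 : (z.1 - p.1) * (rotated P Q α z).1 + (z.2 - p.2) * (rotated P Q α z).2 = w := rfl
        rw [← h5, ← h7]
        ring
      rw [mul_assoc, ← Real.sqrt_mul (by positivity), h6, h5] at h4
      have h8 : (β * √(v ^ 2 + w ^ 2)) ^ 2 < |v| ^ 2 := by
        apply pow_lt_pow_left₀ h4 (by positivity) (by norm_num)
      rw [mul_pow, Real.sq_sqrt (by positivity), sq_abs] at h8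
      rw [hx2, div_mul_eq_mul_div, div_lt_iff₀ hβ2]
      nlinarith
    · rw [hx2]
      field_simp
      ring
  have hrot : ∀ α z, rotated P Q (α + Real.pi) z =
      (-(rotated P Q α z).1, -(rotated P Q α z).2) := by
    intro α z
    unfold rotated
    rw [Real.cos_add_pi, Real.sin_add_pi]
    ext <;> simp <;> ring
  have h := W960.HP.total hF (G := fun α D => Round P Q β α D) (fun α D h => by
      obtain ⟨p, hp1, hp2, h4⟩ := h
      refine ⟨p, hp1, hp2, fun z hz => ?_⟩
      have h5 := h4 z hz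
      rw [hrot]
      simp only [neg_sq]
      rwa [show (z.1 - p.1) * -(rotated P Q α z).2 - (z.2 - p.2) * -(rotated P Q α z).1 =
        -((z.1 - p.1) * (rotated P Q α z).2 - (z.2 - p.2) * (rotated P Q α z).1) by ring, abs_neg])
    (K := Real.pi * n ^ 3 / β ^ 2) (by positivity) hM (closedOrbits P Q)
  refine h.trans (ENNReal.ofReal_le_ofReal (le_of_eq (by ring)))

end Pool.Agent.Results.MP_95e7ec_an.PersistentRound
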