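import Pool.Agent.W960.HP.Tot

/-! # A cubic bound for the total persistence of the closed orbits of a polynomial field

For every single polynomial vector field of degree at most `n` the sum, over all its closed orbits
in the plane, of the lengths of the intervals of angles up to which they persist with diameter in
`[r, R]` when the field is rotated is at most `8 π n³ (1 + log₂ (R / r))`. -/

open Set MeasureTheory
open scoped ENNReal

namespace Pool.Agent.Results.MP_95e7ec_an.PersistentScale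

/-- the vector field `(P, Q)` rotated by the angle `a` -/
noncomputable def rotated (P Q : MvPolynomial (Fin 2) ℝ) (a : ℝ) (z : ℝ × ℝ) : ℝ × ℝ :=
  (Real.cos a * MvPolynomial.eval ![z.1, z.2] P - Real.sin a * MvPolynomial.eval ![z.1, z.2] Q,
    Real.sin a * MvPolynomial.eval ![z.1, z.2] P + Real.cos a * MvPolynomial.eval ![z.1, z.2] Q)

/-- all closed orbits in the plane (ranges of nonconstant periodic solutions, limit cycles or not)
of the system `x' = P, y' = Q` -/
def closedOrbits (P Q : MvPolynomial (Fin 2) ℝ) : Set (Set (ℝ × ℝ)) :=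
  {C | ∃ γ : ℝ → ℝ × ℝ, ∃ T : ℝ, 0 < T ∧
    (∀ t : ℝ, HasDerivAt γ
      (MvPolynomial.eval ![(γ t).1, (γ t).2] P, MvPolynomial.eval ![(γ t).1, (γ t).2] Q) t) ∧
    (∀ t : ℝ, γ (t + T) = γ t) ∧ (∃ s t : ℝ, γ s ≠ γ t) ∧ C = Set.range γ}

/-- the Euclidean diameter of `C` lies between `r` and `R` -/
def DiamIn (r R : ℝ) (C : Set (ℝ × ℝ)) : Prop :=
  (∃ x ∈ C, ∃ y ∈ C, r ≤ √((x.1 - y.1) ^ 2 + (x.2 - y.2) ^ 2)) ∧
    ∀ x ∈ C, ∀ y ∈ C, √((x.1 - y.1) ^ 2 + (x.2 - y.2) ^ 2) ≤ R

/-- The closed orbit `C` of `(P, Q)` persists, with diameter in `[r, R]`, when the field is rotated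
by the angles between `0` and `η`: there are a continuous map `(a, t) ↦ γ a t` and a continuous
positive function `a ↦ T a` such that for all angles `a` between `0` and `η` the curve `γ a` is a
nonconstant solution of period `T a` of the field rotated by `a`, the diameter of its range lies
in `[r, R]`, and `C` is the range of `γ 0`. -/
def Persists (P Q : MvPolynomial (Fin 2) ℝ) (r R η : ℝ) (C : Set (ℝ × ℝ)) : Prop :=
  ∃ γ : ℝ → ℝ → ℝ × ℝ, ∃ T : ℝ → ℝ,
    ContinuousOn (fun q : ℝ × ℝ => γ q.1 q.2) (uIcc 0 η ×ˢ univ) ∧ ContinuousOn T (uIcc 0 η) ∧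
    (∀ a ∈ uIcc 0 η, 0 < T a ∧ (∀ t, HasDerivAt (γ a) (rotated P Q a (γ a t)) t) ∧
      (∀ t, γ a (t + T a) = γ a t) ∧ (∃ s t, γ a s ≠ γ a t) ∧ DiamIn r R (range (γ a))) ∧
    C = range (γ 0)

/-- **The total persistence of the closed orbits of a single polynomial field, at most cubic in
the degree.** -/
theorem result (n : ℕ) (P Q : MvPolynomial (Fin 2) ℝ) (hP : P.totalDegree ≤ n)
    (hQ : Q.totalDegree ≤ n) (hne : P ≠ 0 ∨ Q ≠ 0) (r R : ℝ) (hr : 0 < r) (hR : r ≤ R) :
    ∑' C : closedOrbits P Q,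
      volume {η : ℝ | η ∈ Ioo (-Real.pi) Real.pi ∧ Persists P Q r R η C} ≤
      ENNReal.ofReal (8 * Real.pi * n ^ 3 * (1 + Real.logb 2 (R / r))) := by
  have hF : ContDiff ℝ 2 (H709R2.field P Q) := H709R2.contDiff_field P Q
  have hlog : 0 ≤ Real.logb 2 (R / r) := Real.logb_nonneg (by norm_num) (by
    rw [le_div_iff₀ hr, one_mul]
    exact hR)
  have h := W960.HP.total hF (G := fun _ D => DiamIn r R D) (fun _ _ h => h)
    (K := 4 * Real.pi * n ^ 3 * (1 + Real.logb 2 (R / r))) (by positivity)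
    (H709U.cubicPerScale hP hQ hne hr hR) (closedOrbits P Q)
  refine h.trans (ENNReal.ofReal_le_ofReal (le_of_eq (by ring)))

end Pool.Agent.Results.MP_95e7ec_an.PersistentScale
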