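import Pool.Agent.W960.HR.Main

/-! # A cubic bound for the mean number of closed orbits of random polynomial fields -/

open Set MeasureTheory
open scoped ENNReal

namespace Pool.Agent.Results.MP_95e7ec_an.RandomCubic

/-- `S` is a set of exponents `(i,j)` with `i + j ≤ n` which contains the three corners and their
neighbours (for instance all `(i,j)` with `i + j ≤ n`, when `n ≥ 1`). -/
def Admissible (n : ℕ) (S : Finset (ℕ × ℕ)) : Prop :=
  (∀ m ∈ S, m.1 + m.2 ≤ n) ∧ (0, 0) ∈ S ∧ (1, 0) ∈ S ∧ (0, 1) ∈ S ∧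
    (n, 0) ∈ S ∧ (n - 1, 0) ∈ S ∧ (n - 1, 1) ∈ S ∧ (0, n) ∈ S ∧ (0, n - 1) ∈ S ∧ (1, n - 1) ∈ S

/-- The vector field `(∑ a_{ij} x^i y^j, ∑ b_{ij} x^i y^j)`, `(i,j) ∈ S`, where
`c (i,j) = (a_{ij}, b_{ij})`. -/
def field (S : Finset (ℕ × ℕ)) (c : S → ℝ × ℝ) (z : ℝ × ℝ) : ℝ × ℝ :=
  (∑ m : S, (c m).1 * (z.1 ^ m.1.1 * z.2 ^ m.1.2), ∑ m : S, (c m).2 * (z.1 ^ m.1.1 * z.2 ^ m.1.2))

/-- the number of all nonconstant closed orbits (limit cycles or not) in the plane `ℝ²` -/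
noncomputable def closedOrbits (S : Finset (ℕ × ℕ)) (c : S → ℝ × ℝ) : ℝ≥0∞ :=
  (({C : Set (ℝ × ℝ) | ∃ γ : ℝ → ℝ × ℝ, ∃ T : ℝ, 0 < T ∧
    (∀ t : ℝ, HasDerivAt γ (field S c (γ t)) t) ∧ (∀ t : ℝ, γ (t + T) = γ t) ∧
    (∃ s t : ℝ, γ s ≠ γ t) ∧ C = Set.range γ}.encard : ℕ∞) : ℝ≥0∞)

/-- the number of equilibria in the plane -/
noncomputable def equilibria (S : Finset (ℕ × ℕ)) (c : S → ℝ × ℝ) : ℝ≥0∞ :=
  (({z : ℝ × ℝ | field S c z = 0}.encard : ℕ∞) : ℝ≥0∞)

/-- the rotation of the plane by the angle `α` -/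
noncomputable def rotation (α : ℝ) (v : ℝ × ℝ) : ℝ × ℝ :=
  (Real.cos α * v.1 - Real.sin α * v.2, Real.sin α * v.1 + Real.cos α * v.2)

lemma field_eq (S : Finset (ℕ × ℕ)) (c : S → ℝ × ℝ) : field S c = H709R2.fld c := by
  funext p
  unfold field H709R2.fld
  ext
  · simp only [Prod.fst_sum, Prod.smul_fst, smul_eq_mul]
    exact Finset.sum_congr rfl fun m _ => mul_comm _ _
  · simp only [Prod.snd_sum, Prod.smul_snd, smul_eq_mul]
    exact Finset.sum_congr rfl fun m _ => mul_comm _ _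

lemma closedOrbits_eq (S : Finset (ℕ × ℕ)) (c : S → ℝ × ℝ) : closedOrbits S c = H709R2.NP c := by
  unfold H709R2.NP closedOrbits H709R2.ClosedOrbit
  rw [field_eq]

lemma equilibria_eq (S : Finset (ℕ × ℕ)) (c : S → ℝ × ℝ) : equilibria S c = W960.HR.NZ c := by
  unfold equilibria W960.HR.NZ
  rw [field_eq]

/-- Let the coefficient vectors `c (i,j) = (a_{ij}, b_{ij})`, `(i,j) ∈ S`, be independent with laws
`μ (i,j)` of density at most `D` and second moment at most `W`, where `D, W ≥ 1`. Then the number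
of closed orbits is a Borel function of the coefficients, and

* the integral over all angles `α` in `(0, π)` of the expected number of closed orbits of the field
  rotated by `α` is at most `2.2 * 10 ^ 8 * (1 + log (n D W)) * (1 + n E)`, where `E` is the expected
  number of equilibria, and `E ≤ n ^ 2`; so it is at most `4.4 * 10 ^ 8 * n ^ 3 * (1 + log (n D W))`;
* if all the laws are invariant under rotations, the expected number of closed orbits is at most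
  `8 * 10 ^ 7 * (1 + log (n D W)) * (1 + n E)`, so at most
  `1.6 * 10 ^ 8 * n ^ 3 * (1 + log (n D W))`. -/
theorem result (n : ℕ) (S : Finset (ℕ × ℕ)) (hS : Admissible n S) (μ : S → Measure (ℝ × ℝ))
    [∀ m, IsProbabilityMeasure (μ m)] (D W : ℝ) (hD1 : 1 ≤ D) (hW1 : 1 ≤ W)
    (hD : ∀ m (B : Set (ℝ × ℝ)), μ m B ≤ ENNReal.ofReal D * volume B)
    (hW : ∀ m, ∫⁻ w, ENNReal.ofReal (w.1 ^ 2 + w.2 ^ 2) ∂μ m ≤ ENNReal.ofReal W) :
    Measurable (closedOrbits S) ∧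
    ∫⁻ c, equilibria S c ∂Measure.pi μ ≤ (n : ℝ≥0∞) ^ 2 ∧
    (∫⁻ c, (∫⁻ α in Ioo 0 Real.pi, closedOrbits S (fun m => rotation α (c m))) ∂Measure.pi μ ≤
        ENNReal.ofReal (220000000 * (1 + Real.log (n * D * W))) *
          (1 + n * ∫⁻ c, equilibria S c ∂Measure.pi μ) ∧
      ∫⁻ c, (∫⁻ α in Ioo 0 Real.pi, closedOrbits S (fun m => rotation α (c m))) ∂Measure.pi μ ≤
        ENNReal.ofReal (440000000 * n ^ 3 * (1 + Real.log (n * D * W)))) ∧
    ((∀ m α, (μ m).map (rotation α) = μ m) →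
      ∫⁻ c, closedOrbits S c ∂Measure.pi μ ≤
        ENNReal.ofReal (80000000 * (1 + Real.log (n * D * W))) *
          (1 + n * ∫⁻ c, equilibria S c ∂Measure.pi μ) ∧
      ∫⁻ c, closedOrbits S c ∂Measure.pi μ ≤
        ENNReal.ofReal (160000000 * n ^ 3 * (1 + Real.log (n * D * W)))) := by
  obtain ⟨h0, h1, h2, h3, h4, h5, h6, h7, h8, h9⟩ := hS
  have hF : W960.HR.Full n S := ⟨h0, h1, h2, h3, h4, h5, h6, h7, h8, h9⟩
  have hc : closedOrbits S = H709R2.NP := funext fun c => closedOrbits_eq S c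
  have he : equilibria S = W960.HR.NZ := funext fun c => equilibria_eq S c
  rw [hc, he]
  exact ⟨H709R2.measurable_NP, W960.HR.lintegral_NZ_le hF μ hD1 hW1 hD hW,
    ⟨W960.HR.lintegral_phi hF μ hD1 hW1 hD hW, W960.HR.cubic_phi hF μ hD1 hW1 hD hW⟩,
    fun hR => ⟨W960.HR.expected hF μ hD1 hW1 hD hW hR, W960.HR.cubic_expected hF μ hD1 hW1 hD hW hR⟩⟩

end Pool.Agent.Results.MP_95e7ec_an.RandomCubic
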