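import Pool.Agent.W960.HR.Near

/-! # Smoothed analysis of the number of limit cycles: a cubic bound

For every planar polynomial system of degree at most `n`: after adding independent Gaussian noise of
standard deviation `σ` to all coefficients the expected number of all closed orbits in the plane is
at most `7 * 10 ^ 9 * n ^ 3 * X * (1 + log (n X))` with `X = 1 + |c₀| / σ`. -/

open Set MeasureTheory
open scoped ENNReal

namespace Pool.Agent.Results.MP_95e7ec_an.SmoothedCubic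

/-- `S` is a set of exponents `(i,j)` with `i + j ≤ n` which contains the three corners and their
neighbours (for instance all `(i,j)` with `i + j ≤ n`, when `n ≥ 1`). -/
def Admissible (n : ℕ) (S : Finset (ℕ × ℕ)) : Prop :=
  (∀ m ∈ S, m.1 + m.2 ≤ n) ∧ (0, 0) ∈ S ∧ (1, 0) ∈ S ∧ (0, 1) ∈ S ∧
    (n, 0) ∈ S ∧ (n - 1, 0) ∈ S ∧ (n - 1, 1) ∈ S ∧ (0, n) ∈ S ∧ (0, n - 1) ∈ S ∧ (1, n - 1) ∈ S

/-- The number of all nonconstant closed orbits (limit cycles or not) in the plane `ℝ²` of the system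
`x' = ∑ a_{ij} x^i y^j`, `y' = ∑ b_{ij} x^i y^j`, `(i,j) ∈ S`, where `c (i,j) = (a_{ij}, b_{ij})`. -/
noncomputable def closedOrbits (S : Finset (ℕ × ℕ)) (c : S → ℝ × ℝ) : ℝ≥0∞ :=
  (({C : Set (ℝ × ℝ) | ∃ γ : ℝ → ℝ × ℝ, ∃ T : ℝ, 0 < T ∧
    (∀ t : ℝ, HasDerivAt γ
      (∑ m : S, (c m).1 * ((γ t).1 ^ m.1.1 * (γ t).2 ^ m.1.2),
       ∑ m : S, (c m).2 * ((γ t).1 ^ m.1.1 * (γ t).2 ^ m.1.2)) t) ∧
    (∀ t : ℝ, γ (t + T) = γ t) ∧ (∃ s t : ℝ, γ s ≠ γ t) ∧ C = Set.range γ}.encard : ℕ∞) : ℝ≥0∞)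

/-- the Euclidean length of the vector of all coefficients -/
noncomputable def size (S : Finset (ℕ × ℕ)) (c : S → ℝ × ℝ) : ℝ :=
  √(∑ m : S, ((c m).1 ^ 2 + (c m).2 ^ 2))

/-- the system with coefficients `c₀ + σ g` -/
def perturbed (S : Finset (ℕ × ℕ)) (c₀ : S → ℝ × ℝ) (σ : ℝ) (g : S → ℝ × ℝ) : S → ℝ × ℝ :=
  fun m => ((c₀ m).1 + σ * (g m).1, (c₀ m).2 + σ * (g m).2)

lemma closedOrbits_eq (S : Finset (ℕ × ℕ)) (c : S → ℝ × ℝ) : closedOrbits S c = H709R2.NP c := by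
  have h1 : ∀ p : ℝ × ℝ, (∑ m : S, (c m).1 * (p.1 ^ m.1.1 * p.2 ^ m.1.2),
      ∑ m : S, (c m).2 * (p.1 ^ m.1.1 * p.2 ^ m.1.2)) = H709R2.fld c p := by
    intro p
    unfold H709R2.fld
    ext
    · simp only [Prod.fst_sum, Prod.smul_fst, smul_eq_mul]
      exact Finset.sum_congr rfl fun m _ => mul_comm _ _
    · simp only [Prod.snd_sum, Prod.smul_snd, smul_eq_mul]
      exact Finset.sum_congr rfl fun m _ => mul_comm _ _
  unfold H709R2.NP closedOrbits H709R2.ClosedOrbit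
  simp only [h1]

/-- Let `c₀` be any polynomial system with exponents in `S`.

* For every `σ > 0`: if `g` is a vector of independent standard normal variables, the expected number
  of closed orbits of the system with coefficients `c₀ + σ g` is at most
  `7 * 10 ^ 9 * n ^ 3 * X * (1 + log (n X))`, where `X = 1 + |c₀| / σ`.
* For every `δ > 0` there is a system at distance at most `δ` from `c₀` (in the Euclidean norm of the
  coefficients) with at most `2.1 * 10 ^ 10 * n ^ 3 * Y * (1 + log (n Y))` closed orbits, where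
  `Y = 1 + 4 n |c₀| / δ`. -/
theorem result (n : ℕ) (S : Finset (ℕ × ℕ)) (hS : Admissible n S) (c₀ : S → ℝ × ℝ) :
    Measurable (closedOrbits S) ∧
    (∀ σ : ℝ, 0 < σ →
      ∫⁻ g, closedOrbits S (perturbed S c₀ σ g)
        ∂(Measure.pi fun _ : S =>
          (ProbabilityTheory.gaussianReal 0 1).prod (ProbabilityTheory.gaussianReal 0 1)) ≤
        ENNReal.ofReal (7 * 10 ^ 9 * n ^ 3 * (1 + size S c₀ / σ) *
          (1 + Real.log (n * (1 + size S c₀ / σ))))) ∧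
    ∀ δ : ℝ, 0 < δ → ∃ c : S → ℝ × ℝ,
      ∑ m : S, (((c m).1 - (c₀ m).1) ^ 2 + ((c m).2 - (c₀ m).2) ^ 2) ≤ δ ^ 2 ∧
      closedOrbits S c ≤ ENNReal.ofReal (21 * 10 ^ 9 * n ^ 3 * (1 + 4 * n * size S c₀ / δ) *
        (1 + Real.log (n * (1 + 4 * n * size S c₀ / δ)))) := by
  obtain ⟨h0, h1, h2, h3, h4, h5, h6, h7, h8, h9⟩ := hS
  have hF : W960.HR.Full n S := ⟨h0, h1, h2, h3, h4, h5, h6, h7, h8, h9⟩
  have hc : closedOrbits S = H709R2.NP := funext fun c => closedOrbits_eq S c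
  rw [hc]
  exact ⟨H709R2.measurable_NP, fun σ hσ => W960.HR.smoothed hF c₀ hσ,
    fun δ hδ => W960.HR.near hF c₀ hδ⟩

end Pool.Agent.Results.MP_95e7ec_an.SmoothedCubic
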